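import Mathlib

/-!
Places of a number field, normalised absolute values, and the Liouville inequality for linear
forms at an arbitrary finite set of places.
-/

namespace Pool.Agent.Helper64.Vojta

open NumberField Finset

/-- The places of a number field: infinite or finite. -/
abbrev Pl (L : Type*) [Field L] [NumberField L] : Type _ := InfinitePlace L ⊕ FinitePlace L

section

variable {L : Type*} [Field L] [NumberField L]

/-- The normalised absolute value `‖y‖_w` (the one satisfying the product formula). -/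
noncomputable def nv : Pl L → L → ℝ
  | .inl w, y => w y ^ w.mult
  | .inr w, y => w y

theorem nv_nonneg (w : Pl L) (y : L) : 0 ≤ nv w y := by
  rcases w with w | w
  · exact pow_nonneg (apply_nonneg w y) _
  · exact apply_nonneg w y

theorem nv_mul (w : Pl L) (y z : L) : nv w (y * z) = nv w y * nv w z := by
  rcases w with w | w
  · simp [nv, mul_pow]
  · simp [nv]

theorem nv_one (w : Pl L) : nv w (1 : L) = 1 := by
  rcases w with w | w <;> simp [nv]

theorem nv_zero (w : Pl L) : nv w (0 : L) = 0 := by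
  rcases w with w | w
  · simp [nv, w.mult_ne_zero]
  · simp [nv]

theorem nv_pos (w : Pl L) {y : L} (hy : y ≠ 0) : 0 < nv w y := by
  rcases w with w | w
  · exact pow_pos (InfinitePlace.pos_iff.mpr hy) _
  · exact FinitePlace.pos_iff.mpr hy

theorem nv_inv (w : Pl L) (y : L) : nv w y⁻¹ = (nv w y)⁻¹ := by
  rcases w with w | w <;> simp [nv]

omit [NumberField L] in
theorem mult_le_two (w : InfinitePlace L) : w.mult ≤ 2 := by
  unfold InfinitePlace.mult; split_ifs <;> norm_num

theorem nv_sum_le_inr (w : FinitePlace L) {ι : Type*} (s : Finset ι) (f : ι → L) (B : ℝ) (hB : 0 ≤ B)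
    (h : ∀ i ∈ s, nv (.inr w) (f i) ≤ B) : nv (.inr w) (∑ i ∈ s, f i) ≤ B := by
  classical
  induction s using Finset.induction_on with
  | empty => simpa [nv_zero] using hB
  | insert a s ha ih =>
    rw [Finset.sum_insert ha]
    have h1 : nv (.inr w) (f a + ∑ i ∈ s, f i) ≤ max (nv (.inr w) (f a)) (nv (.inr w) (∑ i ∈ s, f i)) :=
      FinitePlace.add_le w _ _
    refine h1.trans (max_le (h a (Finset.mem_insert_self a s)) (ih fun i hi => h i (Finset.mem_insert_of_mem hi)))

theorem nv_sum_le_inl (w : InfinitePlace L) {ι : Type*} (s : Finset ι) (f : ι → L) (B : ℝ) (hB : 0 ≤ B)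
    (h : ∀ i ∈ s, nv (.inl w) (f i) ≤ B) : nv (.inl w) (∑ i ∈ s, f i) ≤ (s.card + 1 : ℝ) ^ 2 * B := by
  have hm : w.mult = 1 ∨ w.mult = 2 := by
    unfold InfinitePlace.mult; split_ifs <;> simp
  have hsum : w (∑ i ∈ s, f i) ≤ ∑ i ∈ s, w (f i) := by
    classical
    induction s using Finset.induction_on with
    | empty => simp
    | insert a s ha ih =>
      rw [Finset.sum_insert ha, Finset.sum_insert ha]
      exact (w.1.add_le _ _).trans (add_le_add le_rfl (ih (fun i hi => h i (Finset.mem_insert_of_mem hi))))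
  have hw : ∀ i, 0 ≤ w (f i) := fun i => apply_nonneg w _
  have hc : (1 : ℝ) ≤ s.card + 1 := by
    have : (0 : ℝ) ≤ s.card := Nat.cast_nonneg _
    linarith
  rcases hm with hm | hm
  · simp only [nv, hm, pow_one] at h ⊢
    have h1 : ∑ i ∈ s, w (f i) ≤ s.card * B := by
      calc ∑ i ∈ s, w (f i) ≤ ∑ i ∈ s, B := Finset.sum_le_sum h
        _ = s.card * B := by rw [Finset.sum_const, nsmul_eq_mul]
    have h4 : (s.card : ℝ) ≤ (s.card + 1 : ℝ) ^ 2 := by nlinarith
    exact hsum.trans (h1.trans (mul_le_mul_of_nonneg_right h4 hB))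
  · simp only [nv, hm] at h ⊢
    have h2 : ∀ i ∈ s, w (f i) ≤ Real.sqrt B := fun i hi => Real.le_sqrt_of_sq_le (h i hi)
    have h1 : ∑ i ∈ s, w (f i) ≤ s.card * Real.sqrt B := by
      calc ∑ i ∈ s, w (f i) ≤ ∑ i ∈ s, Real.sqrt B := Finset.sum_le_sum h2
        _ = s.card * Real.sqrt B := by rw [Finset.sum_const, nsmul_eq_mul]
    have h3 : w (∑ i ∈ s, f i) ≤ (s.card + 1) * Real.sqrt B := by
      have h5 := Real.sqrt_nonneg B
      have h6 : (s.card : ℝ) * Real.sqrt B ≤ (s.card + 1) * Real.sqrt B :=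
        mul_le_mul_of_nonneg_right (by linarith) h5
      exact hsum.trans (h1.trans h6)
    calc w (∑ i ∈ s, f i) ^ 2 ≤ ((s.card + 1) * Real.sqrt B) ^ 2 :=
          pow_le_pow_left₀ (apply_nonneg w _) h3 2
      _ = (s.card + 1 : ℝ) ^ 2 * B := by rw [mul_pow, Real.sq_sqrt hB]

theorem nv_sum_le (w : Pl L) {ι : Type*} (s : Finset ι) (f : ι → L) (B : ℝ) (hB : 0 ≤ B)
    (h : ∀ i ∈ s, nv w (f i) ≤ B) : nv w (∑ i ∈ s, f i) ≤ (s.card + 1 : ℝ) ^ 2 * B := by
  rcases w with w | w
  · exact nv_sum_le_inl w s f B hB h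
  · refine (nv_sum_le_inr w s f B hB h).trans ?_
    have h0 : (0 : ℝ) ≤ s.card := Nat.cast_nonneg _
    have h1 : (1 : ℝ) ≤ (s.card + 1 : ℝ) ^ 2 := by nlinarith
    calc B = 1 * B := (one_mul B).symm
      _ ≤ (s.card + 1 : ℝ) ^ 2 * B := mul_le_mul_of_nonneg_right h1 hB

variable {m : ℕ}

/-- The sup norm of a vector at a place. -/
noncomputable def sn (w : Pl L) (x : Fin m → L) : ℝ := ⨆ i, nv w (x i)

theorem le_sn (w : Pl L) (x : Fin m → L) (i : Fin m) : nv w (x i) ≤ sn w x :=
  le_ciSup (f := fun i => nv w (x i)) (Set.finite_range _).bddAbove i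

theorem sn_le (w : Pl L) (x : Fin m → L) (B : ℝ) (hB : 0 ≤ B) (h : ∀ i, nv w (x i) ≤ B) : sn w x ≤ B :=
  Real.iSup_le h hB

theorem sn_pos (w : Pl L) {x : Fin m → L} (hx : x ≠ 0) : 0 < sn w x := by
  obtain ⟨i, hi⟩ := Function.ne_iff.mp hx
  exact (nv_pos w hi).trans_le (le_sn w x i)

theorem log_finprod {α : Type*} (f : α → ℝ) (hf : ∀ a, 0 < f a) (hfin : f.HasFiniteMulSupport) :
    Real.log (∏ᶠ a, f a) = ∑ᶠ a, Real.log (f a) := by
  have hfin' : (Function.mulSupport f).Finite := hfin
  have h1 : ∏ᶠ a, f a = ∏ a ∈ hfin'.toFinset, f a :=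
    finprod_eq_prod_of_mulSupport_subset f (by simp)
  have h2 : ∑ᶠ a, Real.log (f a) = ∑ a ∈ hfin'.toFinset, Real.log (f a) := by
    apply finsum_eq_sum_of_support_subset
    intro a ha
    simp only [Function.mem_support] at ha
    simp only [Set.Finite.coe_toFinset, Function.mem_mulSupport]
    intro h; rw [h, Real.log_one] at ha; exact ha rfl
  rw [h1, h2, Real.log_prod (fun a _ => (hf a).ne')]

theorem log_support {α : Type*} (f : α → ℝ) (hfin : f.HasFiniteMulSupport) :
    (fun a => Real.log (f a)).HasFiniteSupport := by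
  refine Set.Finite.subset hfin ?_
  intro a ha
  simp only [Function.mem_support] at ha
  simp only [Function.mem_mulSupport]
  intro h; rw [h, Real.log_one] at ha; exact ha rfl

theorem fin_support_nv {y : L} (hy : y ≠ 0) :
    (fun w : FinitePlace L => nv (.inr w) y).HasFiniteMulSupport :=
  FinitePlace.hasFiniteMulSupport hy

theorem fin_support_sn {x : Fin m → L} (hx : x ≠ 0) :
    (fun w : FinitePlace L => sn (.inr w) x).HasFiniteMulSupport := by
  classical
  -- outside the union of the supports of the nonzero coordinates the sup is 1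
  have hfin : (⋃ i ∈ {i | x i ≠ 0}, Function.mulSupport (fun w : FinitePlace L => nv (.inr w) (x i))).Finite :=
    Set.Finite.biUnion (Set.toFinite _) fun i hi => fin_support_nv hi
  refine Set.Finite.subset hfin ?_
  intro w hw
  by_contra hcon
  simp only [Set.mem_iUnion, Function.mem_mulSupport, not_exists, not_not, Set.mem_ofPred_eq] at hcon
  apply hw
  obtain ⟨i, hi⟩ := Function.ne_iff.mp hx
  refine le_antisymm (sn_le _ _ _ zero_le_one fun j => ?_) ?_
  · by_cases hj : x j = 0
    · rw [hj, nv_zero]; exact zero_le_one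
    · exact (hcon j hj).le
  · have := le_sn (.inr w) x i
    rwa [hcon i hi] at this

theorem logHeight_eq {x : Fin m → L} (hx : x ≠ 0) :
    Height.logHeight x = ∑ w : InfinitePlace L, Real.log (sn (.inl w) x)
      + ∑ᶠ w : FinitePlace L, Real.log (sn (.inr w) x) := by
  have hm : Nonempty (Fin m) := by
    obtain ⟨i, _⟩ := Function.ne_iff.mp hx
    exact ⟨i⟩
  have h1 : ∀ w : InfinitePlace L, (⨆ i, w (x i)) ^ w.mult = sn (.inl w) x := by
    intro w
    rw [Real.iSup_pow (fun i => apply_nonneg w _)]; rfl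
  rw [Height.logHeight_eq_log_mulHeight, NumberField.mulHeight_eq hx]
  simp_rw [h1]
  have h2 : ∏ᶠ w : FinitePlace L, ⨆ i, w (x i) = ∏ᶠ w : FinitePlace L, sn (.inr w) x := rfl
  rw [h2]
  have hp1 : ∏ w : InfinitePlace L, sn (.inl w) x ≠ 0 :=
    Finset.prod_ne_zero_iff.mpr fun w _ => (sn_pos (.inl w) hx).ne'
  have hp2 : ∏ᶠ w : FinitePlace L, sn (.inr w) x ≠ 0 := by
    have hfs : (Function.mulSupport (fun w : FinitePlace L => sn (.inr w) x)).Finite := fin_support_sn hx
    rw [finprod_eq_prod_of_mulSupport_subset _ (s := hfs.toFinset) (by simp)]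
    exact Finset.prod_ne_zero_iff.mpr fun w _ => (sn_pos (.inr w) hx).ne'
  rw [Real.log_mul hp1 hp2, Real.log_prod (fun w _ => (sn_pos (.inl w) hx).ne'),
    log_finprod _ (fun w => sn_pos (.inr w) hx) (fin_support_sn hx)]

theorem product_formula_log {y : L} (hy : y ≠ 0) :
    ∑ w : InfinitePlace L, Real.log (nv (.inl w) y) + ∑ᶠ w : FinitePlace L, Real.log (nv (.inr w) y) = 0 := by
  have h := prod_abs_eq_one hy
  have hp1 : ∏ w : InfinitePlace L, w y ^ w.mult ≠ 0 :=
    Finset.prod_ne_zero_iff.mpr fun w _ => (nv_pos (.inl w) hy).ne'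
  have hp2 : ∏ᶠ w : FinitePlace L, w y ≠ 0 := by
    intro h0; rw [h0, mul_zero] at h; exact zero_ne_one h
  have h' := congrArg Real.log h
  rw [Real.log_mul hp1 hp2, Real.log_one, Real.log_prod
    (fun w _ => pow_ne_zero _ (InfinitePlace.pos_iff.mpr hy).ne')] at h'
  have h3 : Real.log (∏ᶠ w : FinitePlace L, w y) = ∑ᶠ w : FinitePlace L, Real.log (nv (.inr w) y) :=
    log_finprod (fun w : FinitePlace L => nv (.inr w) y) (fun w => nv_pos (.inr w) hy) (fin_support_nv hy)
  rw [h3] at h'
  exact h'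

/-- evaluation of a linear form -/
def ev {R : Type*} [CommSemiring R] (a x : Fin m → R) : R := ∑ i, a i * x i

/-- local contribution `log (‖x‖_w / ‖a(x)‖_w)` -/
noncomputable def loc (w : Pl L) (a x : Fin m → L) : ℝ := Real.log (sn w x) - Real.log (nv w (ev a x))

/-- Liouville inequality for integral forms at any finite set of places -/
theorem liouville (a x : Fin m → L) (hx : x ≠ 0) (hax : ev a x ≠ 0) (M : ℝ) (hM : 1 ≤ M)
    (hfin : ∀ w : FinitePlace L, ∀ i, nv (.inr w) (a i) ≤ 1)
    (hinf : ∀ w : InfinitePlace L, ∀ i, nv (.inl w) (a i) ≤ M) (W : Finset (Pl L)) :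
    ∑ w ∈ W, loc w a x ≤ Height.logHeight x
      + Fintype.card (InfinitePlace L) * Real.log ((m + 1 : ℝ) ^ 2 * M) := by
  classical
  set K : ℝ := Real.log ((m + 1 : ℝ) ^ 2 * M) with hK
  have hm0 : (0 : ℝ) ≤ m := Nat.cast_nonneg _
  have hc1 : (1 : ℝ) ≤ (m + 1 : ℝ) ^ 2 * M := by nlinarith [sq_nonneg (m : ℝ)]
  have hK0 : 0 ≤ K := Real.log_nonneg hc1
  -- the nonnegative local terms
  let t : Pl L → ℝ := fun w => loc w a x + (match w with | .inl _ => K | .inr _ => 0)
  have ht : ∀ w, 0 ≤ t w := by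
    intro w
    rcases w with w | w
    · have h1 : nv (.inl w) (ev a x) ≤ ((m + 1 : ℝ) ^ 2 * M) * sn (.inl w) x := by
        have := nv_sum_le (.inl w) Finset.univ (fun i => a i * x i) (M * sn (.inl w) x)
          (mul_nonneg (by linarith) (sn_pos (.inl w) hx).le) (fun i _ => by
            rw [nv_mul]
            exact mul_le_mul (hinf w i) (le_sn _ _ _) (nv_nonneg _ _) (by linarith))
        rw [Finset.card_univ, Fintype.card_fin] at this
        calc nv (.inl w) (ev a x) ≤ (m + 1 : ℝ) ^ 2 * (M * sn (.inl w) x) := this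
          _ = _ := by ring
      have h2 := Real.log_le_log (nv_pos (.inl w) hax) h1
      rw [Real.log_mul (by positivity) (sn_pos (.inl w) hx).ne'] at h2
      change 0 ≤ (Real.log (sn (.inl w) x) - Real.log (nv (.inl w) (ev a x))) + K
      linarith
    · have h1 : nv (.inr w) (ev a x) ≤ sn (.inr w) x := by
        refine nv_sum_le_inr w Finset.univ (fun i => a i * x i) (sn (.inr w) x) (sn_pos (.inr w) hx).le
          (fun i _ => ?_)
        rw [nv_mul]
        calc nv (.inr w) (a i) * nv (.inr w) (x i) ≤ 1 * sn (.inr w) x :=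
              mul_le_mul (hfin w i) (le_sn _ _ _) (nv_nonneg _ _) zero_le_one
          _ = _ := one_mul _
      have h2 := Real.log_le_log (nv_pos (.inr w) hax) h1
      change 0 ≤ (Real.log (sn (.inr w) x) - Real.log (nv (.inr w) (ev a x))) + 0
      linarith
  have hts : (fun w : FinitePlace L => t (.inr w)).HasFiniteSupport := by
    have e : (fun w : FinitePlace L => t (.inr w))
        = fun w => Real.log (sn (.inr w) x) - Real.log (nv (.inr w) (ev a x)) := by
      funext w; change _ + (0 : ℝ) = _; rw [add_zero]; rfl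
    rw [e]
    exact (log_support _ (fin_support_sn hx)).sub (log_support _ (fin_support_nv hax))
  -- total
  have htot : ∑ w : InfinitePlace L, t (.inl w) + ∑ᶠ w : FinitePlace L, t (.inr w)
      = Height.logHeight x + Fintype.card (InfinitePlace L) * K := by
    have e1 : ∑ w : InfinitePlace L, t (.inl w) = ∑ w : InfinitePlace L, Real.log (sn (.inl w) x)
        - ∑ w : InfinitePlace L, Real.log (nv (.inl w) (ev a x)) + Fintype.card (InfinitePlace L) * K := by
      have : ∀ w : InfinitePlace L, t (.inl w)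
          = Real.log (sn (.inl w) x) - Real.log (nv (.inl w) (ev a x)) + K := fun w => rfl
      simp_rw [this]
      rw [Finset.sum_add_distrib, Finset.sum_sub_distrib, Finset.sum_const, Finset.card_univ, nsmul_eq_mul]
    have e2 : ∑ᶠ w : FinitePlace L, t (.inr w) = ∑ᶠ w : FinitePlace L, Real.log (sn (.inr w) x)
        - ∑ᶠ w : FinitePlace L, Real.log (nv (.inr w) (ev a x)) := by
      rw [← finsum_sub_distrib (log_support _ (fin_support_sn hx)) (log_support _ (fin_support_nv hax))]
      refine finsum_congr fun w => ?_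
      change _ + (0 : ℝ) = _; rw [add_zero]; rfl
    rw [e1, e2, logHeight_eq hx]
    have := product_formula_log hax
    linarith
  have hWle : ∑ w ∈ W, t w ≤ ∑ w : InfinitePlace L, t (.inl w) + ∑ᶠ w : FinitePlace L, t (.inr w) := by
    rw [← Finset.toLeft_disjSum_toRight (u := W), Finset.sum_disjSum]
    refine add_le_add ?_ ?_
    · exact Finset.sum_le_sum_of_subset_of_nonneg (Finset.subset_univ _) fun w _ _ => ht _
    · have hts' : (Function.support (fun w : FinitePlace L => t (.inr w))).Finite := hts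
      rw [finsum_eq_sum_of_support_subset _ (s := hts'.toFinset ∪ W.toRight) (by
        intro w hw; simp only [Finset.coe_union, Set.mem_union]; left; simpa using hw)]
      exact Finset.sum_le_sum_of_subset_of_nonneg Finset.subset_union_right fun w _ _ => ht _
  have hloc : ∑ w ∈ W, loc w a x ≤ ∑ w ∈ W, t w := by
    refine Finset.sum_le_sum fun w _ => ?_
    rcases w with w | w
    · change loc (.inl w) a x ≤ loc (.inl w) a x + K; linarith
    · change loc (.inr w) a x ≤ loc (.inr w) a x + 0; linarith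
  linarith

end

end Pool.Agent.Helper64.Vojta
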