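import Mathlib
import Pool.Agent.Helper64.Vojta.Places

/-!
Bounds for constants of the base field, uniform over all extensions of bounded degree and over
all places, and Liouville's inequality for linear forms with coefficients in the base field.
-/

namespace Pool.Agent.Helper64.Vojta

open NumberField Finset

universe u v

/-- a linear form (or vector) over `k` viewed over `L` -/
def cst {k : Type*} {L : Type*} [Field k] [Field L] [Algebra k L] {m : ℕ} (a : Fin m → k) : Fin m → L :=
  fun i => algebraMap k L (a i)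

section

variable {k : Type u} [Field k] [NumberField k]

theorem nv_int_le_one {L : Type*} [Field L] [NumberField L] (w : FinitePlace L) (y : 𝓞 L) :
    nv (.inr w) (y : L) ≤ 1 := by
  change w (y : L) ≤ 1
  rw [← FinitePlace.norm_embedding_eq w]
  exact FinitePlace.norm_le_one L w.maximalIdeal y

theorem inf_bound (c : k) : ∃ C : ℝ, 1 ≤ C ∧ ∀ (L : Type v) [Field L] [NumberField L] [Algebra k L],
    ∀ w : InfinitePlace L, nv (.inl w) (algebraMap k L c) ≤ C := by
  classical
  let B : ℝ := 1 + ∑ v : InfinitePlace k, v c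
  have hB0 : 0 ≤ ∑ v : InfinitePlace k, v c := Finset.sum_nonneg fun v _ => apply_nonneg v c
  have hB : 1 ≤ B := by simp only [B]; linarith
  refine ⟨B ^ 2, one_le_pow₀ hB, ?_⟩
  intro L _ _ _ w
  have h1 : w (algebraMap k L c) ≤ B := by
    have : w (algebraMap k L c) = w.comap (algebraMap k L) c := rfl
    rw [this]
    have h2 : w.comap (algebraMap k L) c ≤ ∑ v : InfinitePlace k, v c :=
      Finset.single_le_sum (f := fun v : InfinitePlace k => v c) (fun v _ => apply_nonneg v c)
        (Finset.mem_univ _)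
    simp only [B]; linarith
  have hm : w.mult ≤ 2 := mult_le_two w
  calc nv (.inl w) (algebraMap k L c) = w (algebraMap k L c) ^ w.mult := rfl
    _ ≤ B ^ w.mult := pow_le_pow_left₀ (apply_nonneg w _) h1 _
    _ ≤ B ^ 2 := pow_le_pow_right₀ hB hm

theorem card_inf_le (L : Type*) [Field L] [NumberField L] :
    Fintype.card (InfinitePlace L) ≤ Module.finrank ℚ L := by
  rw [← InfinitePlace.sum_mult_eq, Fintype.card_eq_sum_ones]
  exact Finset.sum_le_sum fun w _ => Nat.one_le_iff_ne_zero.mpr w.mult_ne_zero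

theorem card_inf_le' {L : Type*} [Field L] [NumberField L] [Algebra k L] {r : ℕ}
    (hr : Module.finrank k L ≤ r) :
    Fintype.card (InfinitePlace L) ≤ Module.finrank ℚ k * r := by
  have h1 := card_inf_le L
  have h2 := Module.finrank_mul_finrank ℚ k L
  calc _ ≤ _ := h1
    _ = Module.finrank ℚ k * Module.finrank k L := h2.symm
    _ ≤ _ := Nat.mul_le_mul_left _ hr

/-- lower bound for a nonzero integer at a finite place -/
theorem fin_lower (s : 𝓞 k) (hs : s ≠ 0) (r : ℕ) : ∃ C : ℝ, 0 ≤ C ∧
    ∀ (L : Type v) [Field L] [NumberField L] [Algebra k L], Module.finrank k L ≤ r →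
    ∀ w : Pl L, |Real.log (nv w (algebraMap k L s))| ≤ C := by
  classical
  obtain ⟨B, hB1, hB⟩ := inf_bound.{u, v} (s : k)
  obtain ⟨B', hB1', hB'⟩ := inf_bound.{u, v} ((s : k)⁻¹)
  have hlB : 0 ≤ Real.log B := Real.log_nonneg hB1
  have hlB' : 0 ≤ Real.log B' := Real.log_nonneg hB1'
  set N : ℕ := Module.finrank ℚ k * r with hN
  refine ⟨Real.log B + Real.log B' + N * Real.log B, by positivity, ?_⟩
  intro L _ _ _ hr w
  have hsk : (s : k) ≠ 0 := by simpa using hs
  have hsL : algebraMap k L s ≠ 0 := by simpa using hs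
  have hNB : 0 ≤ (N : ℝ) * Real.log B := by positivity
  have hinf : ∀ w : InfinitePlace L, |Real.log (nv (.inl w) (algebraMap k L s))| ≤ Real.log B + Real.log B' := by
    intro w
    have h1 := Real.log_le_log (nv_pos (.inl w) hsL) (hB L w)
    have h2 := Real.log_le_log (nv_pos (.inl w) (by simpa using hs)) (hB' L w)
    rw [map_inv₀, nv_inv, Real.log_inv] at h2
    rw [abs_le]
    constructor <;> linarith
  rcases w with w | w
  · exact (hinf w).trans (by linarith)
  · have hint : ∀ w : FinitePlace L, nv (.inr w) (algebraMap k L s) ≤ 1 := by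
      intro w
      have := nv_int_le_one w (algebraMap (𝓞 k) (𝓞 L) s)
      rwa [show ((algebraMap (𝓞 k) (𝓞 L) s : 𝓞 L) : L) = algebraMap k L s from rfl] at this
    have hle : ∀ w : FinitePlace L, Real.log (nv (.inr w) (algebraMap k L s)) ≤ 0 := fun w =>
      Real.log_nonpos (nv_nonneg _ _) (hint w)
    have hpf := product_formula_log hsL
    have hsum : ∑ w : InfinitePlace L, Real.log (nv (.inl w) (algebraMap k L s)) ≤ N * Real.log B := by
      calc ∑ w : InfinitePlace L, Real.log (nv (.inl w) (algebraMap k L s))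
          ≤ ∑ w : InfinitePlace L, Real.log B :=
            Finset.sum_le_sum fun w _ => Real.log_le_log (nv_pos (.inl w) hsL) (hB L w)
        _ = Fintype.card (InfinitePlace L) * Real.log B := by
            rw [Finset.sum_const, Finset.card_univ, nsmul_eq_mul]
        _ ≤ N * Real.log B := by
            apply mul_le_mul_of_nonneg_right _ hlB
            exact_mod_cast card_inf_le' hr
    have hsingle : -Real.log (nv (.inr w) (algebraMap k L s))
        ≤ ∑ᶠ w : FinitePlace L, -Real.log (nv (.inr w) (algebraMap k L s)) := by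
      have hfs : (Function.support fun w : FinitePlace L => -Real.log (nv (.inr w) (algebraMap k L s))).Finite := by
        have h0 : (Function.support fun w : FinitePlace L => Real.log (nv (.inr w) (algebraMap k L s))).Finite :=
          log_support _ (fin_support_nv hsL)
        refine h0.subset ?_
        intro w hw
        simp only [Function.mem_support] at hw ⊢
        exact fun h => hw (by rw [h, neg_zero])
      exact single_le_finsum w hfs fun w => neg_nonneg.mpr (hle w)
    rw [finsum_neg_distrib] at hsingle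
    rw [abs_le]
    have := hle w
    constructor <;> linarith

/-- Uniform upper bound for a constant at all places of all extensions of degree `≤ r`. -/
theorem exists_bound (c : k) (r : ℕ) : ∃ C : ℝ, 1 ≤ C ∧
    ∀ (L : Type v) [Field L] [NumberField L] [Algebra k L], Module.finrank k L ≤ r →
    ∀ w : Pl L, nv w (algebraMap k L c) ≤ C := by
  obtain ⟨b, s, hs, hc⟩ := IsFractionRing.div_surjective (A := 𝓞 k) c
  have hs0 : s ≠ 0 := nonZeroDivisors.ne_zero hs
  obtain ⟨C1, h1, hC1⟩ := fin_lower.{u, v} s hs0 r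
  obtain ⟨B, hB1, hB⟩ := inf_bound.{u, v} c
  refine ⟨B + Real.exp C1, by linarith [Real.exp_pos C1], ?_⟩
  intro L _ _ _ hr w
  rcases w with w | w
  · exact (hB L w).trans (by linarith [Real.exp_pos C1])
  · have hsL : algebraMap k L s ≠ 0 := by simpa using hs0
    have h2 := hC1 L hr (.inr w)
    rw [abs_le] at h2
    have h3 : nv (.inr w) (algebraMap k L c) = nv (.inr w) (algebraMap k L b) * (nv (.inr w) (algebraMap k L s))⁻¹ := by
      rw [← hc, map_div₀, div_eq_mul_inv, nv_mul, nv_inv]
    have h4 : nv (.inr w) (algebraMap k L b) ≤ 1 := by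
      have := nv_int_le_one w (algebraMap (𝓞 k) (𝓞 L) b)
      rwa [show ((algebraMap (𝓞 k) (𝓞 L) b : 𝓞 L) : L) = algebraMap k L b from rfl] at this
    have h5 : (nv (.inr w) (algebraMap k L s))⁻¹ ≤ Real.exp C1 := by
      rw [← Real.exp_log (inv_pos.mpr (nv_pos (.inr w) hsL)), Real.log_inv]
      exact Real.exp_le_exp.mpr (by linarith)
    rw [h3]
    calc nv (.inr w) (algebraMap k L b) * (nv (.inr w) (algebraMap k L s))⁻¹ ≤ 1 * Real.exp C1 :=
          mul_le_mul h4 h5 (inv_nonneg.mpr (nv_nonneg _ _)) zero_le_one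
      _ ≤ B + Real.exp C1 := by linarith

/-- uniform bound for finitely many constants -/
theorem exists_bound_fin {ι : Type*} [Fintype ι] (c : ι → k) (r : ℕ) : ∃ C : ℝ, 1 ≤ C ∧
    ∀ (L : Type v) [Field L] [NumberField L] [Algebra k L], Module.finrank k L ≤ r →
    ∀ w : Pl L, ∀ i, nv w (algebraMap k L (c i)) ≤ C := by
  classical
  choose C hC1 hC using fun i => exists_bound.{u, v} (c i) r
  refine ⟨1 + ∑ i, C i, by
    have : 0 ≤ ∑ i, C i := Finset.sum_nonneg fun i _ => zero_le_one.trans (hC1 i)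
    linarith, ?_⟩
  intro L _ _ _ hr w i
  have h1 : C i ≤ ∑ i, C i := Finset.single_le_sum (fun j _ => zero_le_one.trans (hC1 j)) (Finset.mem_univ i)
  exact (hC i L hr w).trans (by linarith)

variable {m : ℕ}

/-- a linear combination of forms is small where the forms are -/
theorem comb_bound {ι : Type*} [Fintype ι] (G : Fin m → k) (H : ι → Fin m → k)
    (hG : G ∈ Submodule.span k (Set.range H)) (r : ℕ) : ∃ C : ℝ, 1 ≤ C ∧
    ∀ (L : Type v) [Field L] [NumberField L] [Algebra k L], Module.finrank k L ≤ r →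
    ∀ (w : Pl L) (x : Fin m → L) (B : ℝ), 0 ≤ B → (∀ i, nv w (ev (cst (H i)) x) ≤ B) →
      nv w (ev (cst G) x) ≤ C * B := by
  classical
  obtain ⟨c, hc⟩ := (Submodule.mem_span_range_iff_exists_fun k).mp hG
  obtain ⟨C, hC1, hC⟩ := exists_bound_fin.{u, v} c r
  have hc1 : (1 : ℝ) ≤ ((Fintype.card ι : ℝ) + 1) ^ 2 := by
    have : (0 : ℝ) ≤ Fintype.card ι := Nat.cast_nonneg _
    nlinarith
  refine ⟨((Fintype.card ι : ℝ) + 1) ^ 2 * C, by nlinarith, ?_⟩
  intro L _ _ _ hr w x B hB hi
  have e : ev (cst G) x = ∑ i, algebraMap k L (c i) * ev (cst (H i)) x := by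
    rw [← hc]
    simp only [ev, cst, Finset.sum_apply, Pi.smul_apply, smul_eq_mul, map_sum, map_mul, Finset.mul_sum,
      Finset.sum_mul]
    rw [Finset.sum_comm]
    refine Finset.sum_congr rfl fun i _ => Finset.sum_congr rfl fun j _ => by ring
  rw [e]
  have := nv_sum_le w Finset.univ (fun i => algebraMap k L (c i) * ev (cst (H i)) x) (C * B)
    (mul_nonneg (by linarith) hB) (fun i _ => by
      rw [nv_mul]
      exact mul_le_mul (hC L hr w i) (hi i) (nv_nonneg _ _) (by linarith))
  rw [Finset.card_univ] at this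
  calc _ ≤ _ := this
    _ = _ := by ring

/-- Liouville for a form over `k`, uniformly -/
theorem liouville_k (a : Fin m → k) (r : ℕ) : ∃ C : ℝ, 0 ≤ C ∧
    ∀ (L : Type v) [Field L] [NumberField L] [Algebra k L], Module.finrank k L ≤ r →
    ∀ (x : Fin m → L), x ≠ 0 → ev (cst a) x ≠ 0 → ∀ W : Finset (Pl L),
      ∑ w ∈ W, loc w (cst a) x ≤ Height.logHeight x + C * (1 + W.card) := by
  classical
  -- common denominator
  obtain ⟨s, hs⟩ := IsLocalization.exist_integer_multiples_of_finset (nonZeroDivisors (𝓞 k))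
    (Finset.univ.image a)
  have hs0 : (s : 𝓞 k) ≠ 0 := nonZeroDivisors.ne_zero s.2
  have hint : ∀ i, ∃ b : 𝓞 k, (b : k) = (s : 𝓞 k) * a i := by
    intro i
    obtain ⟨b, hb⟩ := hs (a i) (Finset.mem_image_of_mem _ (Finset.mem_univ i))
    exact ⟨b, by rw [show ((b : 𝓞 k) : k) = algebraMap (𝓞 k) k b from rfl, hb, Algebra.smul_def]⟩
  choose b hb using hint
  obtain ⟨C1, hC1, hC1'⟩ := fin_lower.{u, v} (s : 𝓞 k) hs0 r
  obtain ⟨M, hM1, hM⟩ := exists_bound_fin.{u, v} (fun i => (b i : k)) r
  set K : ℝ := Real.log ((m + 1 : ℝ) ^ 2 * M) with hK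
  have hm0 : (0 : ℝ) ≤ m := Nat.cast_nonneg _
  have hc1 : (1 : ℝ) ≤ (m + 1 : ℝ) ^ 2 * M := by nlinarith [sq_nonneg (m : ℝ)]
  have hK0 : 0 ≤ K := Real.log_nonneg hc1
  set N : ℕ := Module.finrank ℚ k * r with hN
  refine ⟨C1 + N * K, by positivity, ?_⟩
  intro L _ _ _ hr x hx hax W
  have hsL : algebraMap k L (s : 𝓞 k) ≠ 0 := by simp
  have hev : ev (cst (fun i => (b i : k))) x = algebraMap k L (s : 𝓞 k) * ev (cst a) x := by
    simp only [ev, cst, hb, map_mul, Finset.mul_sum]
    refine Finset.sum_congr rfl fun i _ => by ring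
  have hev0 : ev (cst (fun i => (b i : k))) x ≠ 0 := by
    rw [hev]; exact mul_ne_zero hsL hax
  have h1 := liouville (cst (fun i => (b i : k))) x hx hev0 M hM1 (fun w i => by
    have := nv_int_le_one w (algebraMap (𝓞 k) (𝓞 L) (b i))
    exact this) (fun w i => hM L hr (.inl w) i) W
  have h2 : ∀ w ∈ W, loc w (cst a) x ≤ loc w (cst (fun i => (b i : k))) x + C1 := by
    intro w _
    have h3 := hC1' L hr w
    rw [abs_le] at h3
    simp only [loc]
    rw [hev, nv_mul, Real.log_mul (nv_pos w hsL).ne' (nv_pos w hax).ne']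
    linarith
  have h4 := Finset.sum_le_sum h2
  rw [Finset.sum_add_distrib, Finset.sum_const, nsmul_eq_mul] at h4
  have h5 : (Fintype.card (InfinitePlace L) : ℝ) * K ≤ N * K :=
    mul_le_mul_of_nonneg_right (by exact_mod_cast card_inf_le' hr) hK0
  have h6 : (0 : ℝ) ≤ W.card := Nat.cast_nonneg _
  have h7 : 0 ≤ (N : ℝ) * K := by positivity
  nlinarith [mul_nonneg h7 h6]

end

end Pool.Agent.Helper64.Vojta
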