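import Mathlib
import Pool.Agent.Helper64.Vojta.Bounds

/-!
Two flags and the height inequality for one projective space.
-/

namespace Pool.Agent.Helper64.Vojta

open NumberField Finset

universe u v

section

variable {k : Type u} [Field k]

/-- `q` linear forms in `m` variables are in general position -/
def GenPos {m q : ℕ} (D : Fin q → Fin m → k) : Prop :=
  ∀ s : Finset (Fin q), s.card ≤ m → LinearIndependent k (fun i : s => D i)

theorem GenPos.linInd {m q : ℕ} {D : Fin q → Fin m → k} (h : GenPos D) {a : ℕ} (ha : a ≤ m)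
    (e : Fin a → Fin q) (he : Function.Injective e) : LinearIndependent k (fun i => D (e i)) := by
  classical
  have hs := h (Finset.univ.image e) (by
    rw [Finset.card_image_of_injective _ he, Finset.card_univ, Fintype.card_fin]; exact ha)
  have := hs.comp (fun i : Fin a => (⟨e i, Finset.mem_image_of_mem _ (Finset.mem_univ i)⟩ :
    (Finset.univ.image e : Finset (Fin q)))) (fun i j hij => he (by simpa using hij))
  exact this

/-- Two flags in opposite directions have a common nonzero element. -/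
theorem exists_common {m a b : ℕ} (hab : m < a + b) (F : Fin a → Fin m → k) (G : Fin b → Fin m → k)
    (hF : LinearIndependent k F) (hG : LinearIndependent k G) :
    ∃ g : Fin m → k, g ≠ 0 ∧ g ∈ Submodule.span k (Set.range F) ∧ g ∈ Submodule.span k (Set.range G) := by
  have h1 := finrank_span_eq_card hF
  have h2 := finrank_span_eq_card hG
  rw [Fintype.card_fin] at h1 h2
  have h3 := Submodule.finrank_sup_add_finrank_inf_eq (Submodule.span k (Set.range F))
    (Submodule.span k (Set.range G))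
  have h4 : Module.finrank k ↥(Submodule.span k (Set.range F) ⊔ Submodule.span k (Set.range G)) ≤ m := by
    have := Submodule.finrank_le (Submodule.span k (Set.range F) ⊔ Submodule.span k (Set.range G))
    rwa [Module.finrank_fin_fun] at this
  have h5 : (Submodule.span k (Set.range F) ⊓ Submodule.span k (Set.range G)) ≠ ⊥ := by
    intro h0
    rw [h0, finrank_bot] at h3
    omega
  obtain ⟨g, hg, hg0⟩ := Submodule.exists_mem_ne_zero_of_ne_bot h5
  exact ⟨g, hg0, hg.1, hg.2⟩

end

section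

variable {k : Type u} [Field k] [NumberField k] {n p : ℕ}

/-- index of the `t`-th hyperplane in the order `σ` -/
def idx (σ : Equiv.Perm (Fin (n + 1 + p))) (t : Fin (n + 1)) : Fin (n + 1 + p) := σ (Fin.castAdd p t)

theorem idx_inj (σ : Equiv.Perm (Fin (n + 1 + p))) : Function.Injective (idx σ) := fun _ _ h =>
  Fin.castAdd_injective _ _ (σ.injective h)

/-- the initial part of the flag at the first place -/
def ini (D : Fin (n + 1 + p) → Fin (n + 1) → k) (σ : Equiv.Perm (Fin (n + 1 + p))) (a : ℕ)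
    (ha : a ≤ n + 1) : Fin a → Fin (n + 1) → k := fun i => D (idx σ (Fin.castLE ha i))

omit [NumberField k] in
/-- choice of the common forms -/
theorem exists_forms (D : Fin (n + 1 + p) → Fin (n + 1) → k) (hD : GenPos D) :
    ∃ G : Equiv.Perm (Fin (n + 1 + p)) → Equiv.Perm (Fin (n + 1 + p)) → Fin (n + 1) → Fin (n + 1) → k,
      ∀ σ τ l, G σ τ l ≠ 0 ∧
        G σ τ l ∈ Submodule.span k (Set.range (ini D σ (l + 1) (by omega))) ∧
        G σ τ l ∈ Submodule.span k (Set.range (ini D τ (n + 1 - l) (by omega))) := by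
  have h : ∀ (σ τ : Equiv.Perm (Fin (n + 1 + p))) (l : Fin (n + 1)), ∃ g : Fin (n + 1) → k, g ≠ 0 ∧
        g ∈ Submodule.span k (Set.range (ini D σ (l + 1) (by omega))) ∧
        g ∈ Submodule.span k (Set.range (ini D τ (n + 1 - l) (by omega))) := by
    intro σ τ l
    refine exists_common (by omega) _ _ ?_ ?_
    · exact hD.linInd (by omega) (fun i => idx σ (Fin.castLE _ i))
        ((idx_inj σ).comp (Fin.castLE_injective _))
    · exact hD.linInd (by omega) (fun i => idx τ (Fin.castLE _ i))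
        ((idx_inj τ).comp (Fin.castLE_injective _))
  choose G hG using h
  exact ⟨G, hG⟩

/-- the order of the hyperplanes at a place: closest first -/
noncomputable def ord {L : Type*} [Field L] [NumberField L] [Algebra k L]
    (D : Fin (n + 1 + p) → Fin (n + 1) → k) (x : Fin (n + 1) → L) (w : Pl L) :
    Equiv.Perm (Fin (n + 1 + p)) := Tuple.sort (fun i => nv w (ev (cst (D i)) x))

omit [NumberField k] in
theorem ord_mono {L : Type*} [Field L] [NumberField L] [Algebra k L]
    (D : Fin (n + 1 + p) → Fin (n + 1) → k) (x : Fin (n + 1) → L) (w : Pl L)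
    {s t : Fin (n + 1 + p)} (hst : s ≤ t) :
    nv w (ev (cst (D (ord D x w s))) x) ≤ nv w (ev (cst (D (ord D x w t))) x) :=
  Tuple.monotone_sort (fun i => nv w (ev (cst (D i)) x)) hst

/-- the coordinates are bounded by the last of the `n+1` closest hyperplanes -/
theorem far_bound (D : Fin (n + 1 + p) → Fin (n + 1) → k) (hD : GenPos D) (r : ℕ) :
    ∃ C : ℝ, 1 ≤ C ∧ ∀ (L : Type v) [Field L] [NumberField L] [Algebra k L],
      Module.finrank k L ≤ r → ∀ (w : Pl L) (x : Fin (n + 1) → L) (t : Fin (n + 1 + p)), n ≤ t →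
      sn w x ≤ C * nv w (ev (cst (D (ord D x w t))) x) := by
  classical
  -- for each permutation and each coordinate
  have hspan : ∀ σ : Equiv.Perm (Fin (n + 1 + p)), ∀ i : Fin (n + 1),
      (Pi.single i 1 : Fin (n + 1) → k) ∈ Submodule.span k (Set.range (fun t => D (idx σ t))) := by
    intro σ i
    have hli : LinearIndependent k (fun t => D (idx σ t)) := hD.linInd le_rfl _ (idx_inj σ)
    have := hli.span_eq_top_of_card_eq_finrank (by rw [Fintype.card_fin, Module.finrank_fin_fun])
    rw [this]; exact Submodule.mem_top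
  choose C hC1 hC using fun (si : Equiv.Perm (Fin (n + 1 + p)) × Fin (n + 1)) =>
    comb_bound.{u, v} (Pi.single si.2 1 : Fin (n + 1) → k) (fun t => D (idx si.1 t)) (hspan si.1 si.2) r
  have hCsum : ∀ si, C si ≤ ∑ si, C si := fun si =>
    Finset.single_le_sum (fun j _ => zero_le_one.trans (hC1 j)) (Finset.mem_univ si)
  refine ⟨∑ si, C si, (hC1 (1, 0)).trans (hCsum _), ?_⟩
  intro L _ _ _ hr w x t ht
  set σ := ord D x w with hσ
  set B := nv w (ev (cst (D (σ t))) x) with hB
  have hB0 : 0 ≤ B := nv_nonneg _ _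
  have hle : ∀ s : Fin (n + 1), nv w (ev (cst (D (idx σ s))) x) ≤ B := by
    intro s
    refine ord_mono D x w ?_
    rw [Fin.le_def]
    have := s.2
    simp only [Fin.val_castAdd]
    omega
  refine sn_le w x _ (mul_nonneg (zero_le_one.trans ((hC1 (1, 0)).trans (hCsum _))) hB0) fun i => ?_
  have h1 := hC (σ, i) L hr w x B hB0 hle
  have h2 : ev (cst (Pi.single i 1 : Fin (n + 1) → k)) x = x i := by
    simp only [ev, cst]
    rw [Finset.sum_eq_single i]
    · simp
    · intro j _ hj; rw [Pi.single_eq_of_ne hj]; simp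
    · intro h; exact absurd (Finset.mem_univ i) h
  rw [h2] at h1
  exact h1.trans (mul_le_mul_of_nonneg_right (hCsum _) hB0)

/-- the common forms are small at both places -/
theorem near_bound (D : Fin (n + 1 + p) → Fin (n + 1) → k)
    (G : Equiv.Perm (Fin (n + 1 + p)) → Equiv.Perm (Fin (n + 1 + p)) → Fin (n + 1) → Fin (n + 1) → k)
    (hG : ∀ σ τ l, G σ τ l ≠ 0 ∧
        G σ τ l ∈ Submodule.span k (Set.range (ini D σ (l + 1) (by omega))) ∧
        G σ τ l ∈ Submodule.span k (Set.range (ini D τ (n + 1 - l) (by omega)))) (r : ℕ) :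
    ∃ C : ℝ, 1 ≤ C ∧ ∀ (L : Type v) [Field L] [NumberField L] [Algebra k L],
      Module.finrank k L ≤ r → ∀ (w w' : Pl L) (x : Fin (n + 1) → L) (l : Fin (n + 1)),
      nv w (ev (cst (G (ord D x w) (ord D x w') l)) x) ≤ C * nv w (ev (cst (D (idx (ord D x w) l))) x) ∧
      nv w' (ev (cst (G (ord D x w) (ord D x w') l)) x)
        ≤ C * nv w' (ev (cst (D (idx (ord D x w') l.rev))) x) := by
  classical
  choose C hC1 hC using fun (s : Equiv.Perm (Fin (n + 1 + p)) × Equiv.Perm (Fin (n + 1 + p)) × Fin (n + 1)) =>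
    comb_bound.{u, v} (G s.1 s.2.1 s.2.2) (ini D s.1 (s.2.2 + 1) (by omega)) (hG s.1 s.2.1 s.2.2).2.1 r
  choose C' hC1' hC' using fun (s : Equiv.Perm (Fin (n + 1 + p)) × Equiv.Perm (Fin (n + 1 + p)) × Fin (n + 1)) =>
    comb_bound.{u, v} (G s.1 s.2.1 s.2.2) (ini D s.2.1 (n + 1 - s.2.2) (by omega)) (hG s.1 s.2.1 s.2.2).2.2 r
  have hs : ∀ s, C s ≤ ∑ s, C s := fun s =>
    Finset.single_le_sum (fun j _ => zero_le_one.trans (hC1 j)) (Finset.mem_univ s)
  have hs' : ∀ s, C' s ≤ ∑ s, C' s := fun s =>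
    Finset.single_le_sum (fun j _ => zero_le_one.trans (hC1' j)) (Finset.mem_univ s)
  have hp : 0 ≤ ∑ s, C s := Finset.sum_nonneg fun j _ => zero_le_one.trans (hC1 j)
  have hp' : 0 ≤ ∑ s, C' s := Finset.sum_nonneg fun j _ => zero_le_one.trans (hC1' j)
  refine ⟨∑ s, C s + ∑ s, C' s, ((hC1 (1, 1, 0)).trans (hs _)).trans (by linarith), ?_⟩
  intro L _ _ _ hr w w' x l
  constructor
  · set B := nv w (ev (cst (D (idx (ord D x w) l))) x) with hB
    have hB0 : 0 ≤ B := nv_nonneg _ _
    have h := hC (ord D x w, ord D x w', l) L hr w x B hB0 (fun i => by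
      refine ord_mono D x w ?_
      rw [Fin.le_def]
      have h1 : (i : ℕ) < (l : ℕ) + 1 := i.2
      simp only [Fin.val_castAdd, Fin.val_castLE]
      omega)
    exact h.trans (mul_le_mul_of_nonneg_right ((hs _).trans (by linarith)) hB0)
  · set B := nv w' (ev (cst (D (idx (ord D x w') l.rev))) x) with hB
    have hB0 : 0 ≤ B := nv_nonneg _ _
    have h := hC' (ord D x w, ord D x w', l) L hr w' x B hB0 (fun i => by
      refine ord_mono D x w' ?_
      rw [Fin.le_def]
      have h1 : (i : ℕ) < n + 1 - (l : ℕ) := i.2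
      have h2 := Fin.val_rev l
      have h3 := l.2
      simp only [Fin.val_castAdd, Fin.val_castLE]
      omega)
    exact h.trans (mul_le_mul_of_nonneg_right ((hs' _).trans (by linarith)) hB0)

/-- single place: the sum of all local contributions -/
theorem single_place (D : Fin (n + 1 + p) → Fin (n + 1) → k) (hD : GenPos D) (r : ℕ) :
    ∃ C : ℝ, 0 ≤ C ∧ ∀ (L : Type v) [Field L] [NumberField L] [Algebra k L],
      Module.finrank k L ≤ r → ∀ (w : Pl L) (x : Fin (n + 1) → L), x ≠ 0 →
      (∀ i, ev (cst (D i)) x ≠ 0) →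
      ∑ i, loc w (cst (D i)) x ≤ n * Height.logHeight x + C := by
  classical
  obtain ⟨C0, hC01, hC0⟩ := far_bound.{u, v} D hD r
  choose C1 hC1 hC1' using fun i => liouville_k.{u, v} (D i) r
  have hl0 : 0 ≤ Real.log C0 := Real.log_nonneg hC01
  have hs1 : ∀ i, C1 i ≤ ∑ i, C1 i := fun i =>
    Finset.single_le_sum (fun j _ => hC1 j) (Finset.mem_univ i)
  have hS : 0 ≤ ∑ i, C1 i := Finset.sum_nonneg fun j _ => hC1 j
  refine ⟨n * (2 * ∑ i, C1 i) + (p + 1) * Real.log C0, by positivity, ?_⟩
  intro L _ _ _ hr w x hx hDx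
  have hfar : ∀ t : Fin (n + 1 + p), n ≤ t → loc w (cst (D (ord D x w t))) x ≤ Real.log C0 := by
    intro t ht
    have h1 := Real.log_le_log (sn_pos w hx) (hC0 L hr w x t ht)
    rw [Real.log_mul (by linarith) (nv_pos w (hDx _)).ne'] at h1
    simp only [loc]; linarith
  have hnear : ∀ i, loc w (cst (D i)) x ≤ Height.logHeight x + 2 * ∑ i, C1 i := by
    intro i
    have h1 := hC1' i L hr x hx (hDx i) {w}
    rw [Finset.sum_singleton, Finset.card_singleton] at h1
    have := hs1 i
    push_cast at h1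
    linarith
  rw [← Equiv.sum_comp (ord D x w), Fin.sum_univ_add, Fin.sum_univ_castSucc]
  have e1 : ∑ i : Fin n, loc w (cst (D (ord D x w (Fin.castAdd p i.castSucc)))) x
      ≤ ∑ i : Fin n, (Height.logHeight x + 2 * ∑ i, C1 i) := Finset.sum_le_sum fun i _ => hnear _
  have e2 : loc w (cst (D (ord D x w (Fin.castAdd p (Fin.last n))))) x ≤ Real.log C0 := hfar _ (by simp)
  have e3 : ∑ i : Fin p, loc w (cst (D (ord D x w (Fin.natAdd (n + 1) i)))) x
      ≤ ∑ i : Fin p, Real.log C0 := Finset.sum_le_sum fun i _ => hfar _ (by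
        simp only [Fin.val_natAdd]; omega)
  rw [Finset.sum_const, Finset.card_univ, Fintype.card_fin, nsmul_eq_mul] at e1 e3
  have : (n : ℝ) * (Height.logHeight x + 2 * ∑ i, C1 i) = n * Height.logHeight x + n * (2 * ∑ i, C1 i) := by ring
  linarith

/-- two places -/
theorem two_places (D : Fin (n + 1 + p) → Fin (n + 1) → k) (hD : GenPos D)
    (G : Equiv.Perm (Fin (n + 1 + p)) → Equiv.Perm (Fin (n + 1 + p)) → Fin (n + 1) → Fin (n + 1) → k)
    (hG : ∀ σ τ l, G σ τ l ≠ 0 ∧
        G σ τ l ∈ Submodule.span k (Set.range (ini D σ (l + 1) (by omega))) ∧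
        G σ τ l ∈ Submodule.span k (Set.range (ini D τ (n + 1 - l) (by omega)))) (r : ℕ) :
    ∃ C : ℝ, 0 ≤ C ∧ ∀ (L : Type v) [Field L] [NumberField L] [Algebra k L],
      Module.finrank k L ≤ r → ∀ (w w' : Pl L), w ≠ w' → ∀ (x : Fin (n + 1) → L), x ≠ 0 →
      (∀ i, ev (cst (D i)) x ≠ 0) → (∀ σ τ l, ev (cst (G σ τ l)) x ≠ 0) →
      ∑ i, loc w (cst (D i)) x + ∑ i, loc w' (cst (D i)) x ≤ (n + 1) * Height.logHeight x + C := by
  classical
  obtain ⟨C0, hC01, hC0⟩ := far_bound.{u, v} D hD r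
  obtain ⟨C2, hC21, hC2⟩ := near_bound.{u, v} D G hG r
  choose C1 hC1 hC1' using fun (s : Equiv.Perm (Fin (n + 1 + p)) × Equiv.Perm (Fin (n + 1 + p)) × Fin (n + 1)) =>
    liouville_k.{u, v} (G s.1 s.2.1 s.2.2) r
  have hl0 : 0 ≤ Real.log C0 := Real.log_nonneg hC01
  have hl2 : 0 ≤ Real.log C2 := Real.log_nonneg hC21
  have hs1 : ∀ i, C1 i ≤ ∑ i, C1 i := fun i =>
    Finset.single_le_sum (fun j _ => hC1 j) (Finset.mem_univ i)
  have hS : 0 ≤ ∑ i, C1 i := Finset.sum_nonneg fun j _ => hC1 j
  refine ⟨(n + 1) * (3 * ∑ i, C1 i + 2 * Real.log C2) + 2 * (p * Real.log C0), by positivity, ?_⟩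
  intro L _ _ _ hr w w' hww x hx hDx hGx
  have hfar : ∀ (w : Pl L) (t : Fin (n + 1 + p)), n ≤ t → loc w (cst (D (ord D x w t))) x ≤ Real.log C0 := by
    intro w t ht
    have h1 := Real.log_le_log (sn_pos w hx) (hC0 L hr w x t ht)
    rw [Real.log_mul (by linarith) (nv_pos w (hDx _)).ne'] at h1
    simp only [loc]; linarith
  -- the rest of the sums
  have hrest : ∀ w : Pl L, ∑ i : Fin p, loc w (cst (D (ord D x w (Fin.natAdd (n + 1) i)))) x ≤ p * Real.log C0 := by
    intro w
    have e3 : ∑ i : Fin p, loc w (cst (D (ord D x w (Fin.natAdd (n + 1) i)))) x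
      ≤ ∑ i : Fin p, Real.log C0 := Finset.sum_le_sum fun i _ => hfar w _ (by
        simp only [Fin.val_natAdd]; omega)
    rwa [Finset.sum_const, Finset.card_univ, Fintype.card_fin, nsmul_eq_mul] at e3
  have hpair : ∀ l : Fin (n + 1), loc w (cst (D (idx (ord D x w) l))) x
      + loc w' (cst (D (idx (ord D x w') l.rev))) x
      ≤ Height.logHeight x + (3 * ∑ i, C1 i + 2 * Real.log C2) := by
    intro l
    have h1 := hC1' (ord D x w, ord D x w', l) L hr x hx (hGx _ _ _) {w, w'}
    rw [Finset.sum_pair hww, Finset.card_pair hww] at h1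
    have h2 := (hC2 L hr w w' x l).1
    have h3 := (hC2 L hr w w' x l).2
    have h2' := Real.log_le_log (nv_pos w (hGx (ord D x w) (ord D x w') l)) h2
    have h3' := Real.log_le_log (nv_pos w' (hGx (ord D x w) (ord D x w') l)) h3
    rw [Real.log_mul (by linarith) (nv_pos w (hDx _)).ne'] at h2'
    rw [Real.log_mul (by linarith) (nv_pos w' (hDx _)).ne'] at h3'
    have h4 := hs1 (ord D x w, ord D x w', l)
    simp only [loc] at h1 ⊢
    push_cast at h1
    linarith
  have hsum := Finset.sum_le_sum fun (l : Fin (n + 1)) (_ : l ∈ Finset.univ) => hpair l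
  rw [Finset.sum_add_distrib, Finset.sum_const, Finset.card_univ, Fintype.card_fin, nsmul_eq_mul] at hsum
  have hrev : ∑ l : Fin (n + 1), loc w' (cst (D (idx (ord D x w') l.rev))) x
      = ∑ l : Fin (n + 1), loc w' (cst (D (idx (ord D x w') l))) x :=
    Equiv.sum_comp Fin.revPerm (fun l => loc w' (cst (D (idx (ord D x w') l))) x)
  rw [hrev] at hsum
  have s1 : ∑ i, loc w (cst (D i)) x = ∑ i : Fin (n + 1), loc w (cst (D (ord D x w (Fin.castAdd p i)))) x
      + ∑ i : Fin p, loc w (cst (D (ord D x w (Fin.natAdd (n + 1) i)))) x := by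
    rw [← Equiv.sum_comp (ord D x w), Fin.sum_univ_add]
  have s2 : ∑ i, loc w' (cst (D i)) x = ∑ i : Fin (n + 1), loc w' (cst (D (ord D x w' (Fin.castAdd p i)))) x
      + ∑ i : Fin p, loc w' (cst (D (ord D x w' (Fin.natAdd (n + 1) i)))) x := by
    rw [← Equiv.sum_comp (ord D x w'), Fin.sum_univ_add]
  rw [s1, s2]
  have e1 := hrest w
  have e2 := hrest w'
  have e3 : ∑ l : Fin (n + 1), loc w (cst (D (idx (ord D x w) l))) x
      = ∑ i : Fin (n + 1), loc w (cst (D (ord D x w (Fin.castAdd p i)))) x := rfl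
  have e4 : ∑ l : Fin (n + 1), loc w' (cst (D (idx (ord D x w') l))) x
      = ∑ i : Fin (n + 1), loc w' (cst (D (ord D x w' (Fin.castAdd p i)))) x := rfl
  rw [e3, e4] at hsum
  push_cast at hsum
  have e5 : ((n : ℝ) + 1) * (Height.logHeight x + (3 * ∑ i, C1 i + 2 * Real.log C2))
      = (n + 1) * Height.logHeight x + (n + 1) * (3 * ∑ i, C1 i + 2 * Real.log C2) := by ring
  linarith

/-- The coefficient for `N` places: `n` for one place, `N (n + 1) / 2` for `N ≥ 2` places. -/
noncomputable def coef (n N : ℕ) : ℝ := if N ≤ 1 then N * n else N * (n + 1) / 2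

/-- any finite set of places, enough hyperplanes -/
theorem many_places (D : Fin (n + 1 + p) → Fin (n + 1) → k) (hD : GenPos D)
    (G : Equiv.Perm (Fin (n + 1 + p)) → Equiv.Perm (Fin (n + 1 + p)) → Fin (n + 1) → Fin (n + 1) → k)
    (hG : ∀ σ τ l, G σ τ l ≠ 0 ∧
        G σ τ l ∈ Submodule.span k (Set.range (ini D σ (l + 1) (by omega))) ∧
        G σ τ l ∈ Submodule.span k (Set.range (ini D τ (n + 1 - l) (by omega)))) (r : ℕ) :
    ∃ C : ℝ, 0 ≤ C ∧ ∀ (L : Type v) [Field L] [NumberField L] [Algebra k L],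
      Module.finrank k L ≤ r → ∀ (x : Fin (n + 1) → L), x ≠ 0 →
      (∀ i, ev (cst (D i)) x ≠ 0) → (∀ σ τ l, ev (cst (G σ τ l)) x ≠ 0) → ∀ W : Finset (Pl L),
      ∑ w ∈ W, ∑ i, loc w (cst (D i)) x ≤ coef n W.card * Height.logHeight x + C * W.card := by
  classical
  obtain ⟨C1, hC1, h1⟩ := single_place.{u, v} D hD r
  obtain ⟨C2, hC2, h2⟩ := two_places.{u, v} D hD G hG r
  refine ⟨C1 + C2, by positivity, ?_⟩
  intro L _ _ _ hr x hx hDx hGx W
  rcases Nat.lt_or_ge W.card 2 with hW | hW
  · have hcase : W.card = 0 ∨ W.card = 1 := by omega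
    rcases hcase with h0 | h0
    · rw [Finset.card_eq_zero] at h0
      subst h0
      simp [coef]
    · obtain ⟨w, rfl⟩ := Finset.card_eq_one.mp h0
      rw [Finset.sum_singleton, Finset.card_singleton]
      have := h1 L hr w x hx hDx
      have hc : coef n 1 = n := by simp [coef]
      rw [hc]
      push_cast
      linarith
  · set F : Pl L → ℝ := fun w => ∑ i, loc w (cst (D i)) x with hF
    set N : ℝ := (W.card : ℝ) with hN
    have hN2 : (2 : ℝ) ≤ N := by rw [hN]; exact_mod_cast hW
    have hpair : ∑ w ∈ W, ∑ w' ∈ W.erase w, (F w + F w')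
        ≤ ∑ w ∈ W, ∑ w' ∈ W.erase w, ((n + 1) * Height.logHeight x + C2) := by
      refine Finset.sum_le_sum fun w _ => Finset.sum_le_sum fun w' hw' => ?_
      exact h2 L hr w w' (Finset.ne_of_mem_erase hw').symm x hx hDx hGx
    have hl : ∑ w ∈ W, ∑ w' ∈ W.erase w, (F w + F w') = 2 * (N - 1) * ∑ w ∈ W, F w := by
      have e1 : ∀ w ∈ W, ∑ w' ∈ W.erase w, (F w + F w') = (N - 1) * F w + (∑ w' ∈ W, F w' - F w) := by
        intro w hw
        rw [Finset.sum_add_distrib, Finset.sum_const, Finset.card_erase_of_mem hw, nsmul_eq_mul,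
          Finset.sum_erase_eq_sub hw, Nat.cast_sub (by omega)]
        push_cast
        ring
      rw [Finset.sum_congr rfl e1, Finset.sum_add_distrib, ← Finset.mul_sum, Finset.sum_sub_distrib,
        Finset.sum_const, nsmul_eq_mul]
      ring
    have hr' : ∑ w ∈ W, ∑ w' ∈ W.erase w, ((n + 1) * Height.logHeight x + C2)
        = N * (N - 1) * ((n + 1) * Height.logHeight x + C2) := by
      have e1 : ∀ w ∈ W, ∑ w' ∈ W.erase w, ((n + 1) * Height.logHeight x + C2)
          = (N - 1) * ((n + 1) * Height.logHeight x + C2) := by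
        intro w hw
        rw [Finset.sum_const, Finset.card_erase_of_mem hw, nsmul_eq_mul, Nat.cast_sub (by omega)]
        push_cast
        ring
      rw [Finset.sum_congr rfl e1, Finset.sum_const, nsmul_eq_mul]
      ring
    rw [hl, hr'] at hpair
    have hcoef : coef n W.card = N * (n + 1) / 2 := by
      unfold coef; rw [if_neg (by omega)]
    rw [hcoef]
    have h3 : 0 < N - 1 := by linarith
    have h4 : (N - 1) * (2 * ∑ w ∈ W, F w) ≤ (N - 1) * (N * ((n + 1) * Height.logHeight x + C2)) := by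
      calc (N - 1) * (2 * ∑ w ∈ W, F w) = 2 * (N - 1) * ∑ w ∈ W, F w := by ring
        _ ≤ _ := hpair
        _ = _ := by ring
    have h5 := le_of_mul_le_mul_left h4 h3
    have h6 : 0 ≤ C1 * N := by positivity
    have h7 : 0 ≤ C2 * N := by positivity
    have e : N * (↑n + 1) / 2 * Height.logHeight x + (C1 + C2) * N
      = (N * ((n + 1) * Height.logHeight x + C2)) / 2 + C1 * N + C2 * N / 2 := by ring
    rw [e]
    linarith

end

end Pool.Agent.Helper64.Vojta
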