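import Mathlib
import Pool.Agent.Helper64.Vojta.Flags

/-!
The height inequality for one projective space with arbitrarily many hyperplanes, and
the places above a given place.
-/

namespace Pool.Agent.Helper64.Vojta

open NumberField Finset

universe u v

section

variable {k : Type u} [Field k] [NumberField k]

/-- normalised local term of a hyperplane -/
noncomputable def wloc {L : Type*} [Field L] [NumberField L] [Algebra k L] {m : ℕ} (w : Pl L)
    (a : Fin m → k) (x : Fin m → L) : ℝ :=
  Real.log (sn w (cst a : Fin m → L) * sn w x / nv w (ev (cst a) x))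

omit [NumberField k] in
theorem GenPos.ne_zero {n q : ℕ} {D : Fin q → Fin (n + 1) → k} (h : GenPos D) (i : Fin q) : D i ≠ 0 := by
  have h1 := h {i} (by simp)
  exact h1.ne_zero (⟨i, Finset.mem_singleton_self i⟩ : ({i} : Finset (Fin q)))

omit [NumberField k] in
theorem cst_ne_zero {L : Type*} [Field L] [Algebra k L] {m : ℕ} {a : Fin m → k} (ha : a ≠ 0) :
    (cst a : Fin m → L) ≠ 0 := by
  obtain ⟨i, hi⟩ := Function.ne_iff.mp ha
  refine Function.ne_iff.mpr ⟨i, ?_⟩
  simpa [cst] using hi

theorem wloc_le {n q : ℕ} (D : Fin q → Fin (n + 1) → k) (hD : GenPos D) (r : ℕ) :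
    ∃ C : ℝ, 0 ≤ C ∧ ∀ (L : Type v) [Field L] [NumberField L] [Algebra k L],
      Module.finrank k L ≤ r → ∀ (w : Pl L) (x : Fin (n + 1) → L), x ≠ 0 → ∀ i,
      ev (cst (D i)) x ≠ 0 → wloc w (D i) x ≤ loc w (cst (D i)) x + C := by
  classical
  obtain ⟨C, hC1, hC⟩ := exists_bound_fin.{u, v} (fun s : Fin q × Fin (n + 1) => D s.1 s.2) r
  refine ⟨Real.log C, Real.log_nonneg hC1, ?_⟩
  intro L _ _ _ hr w x hx i hix
  have h1 : sn w (cst (D i) : Fin (n + 1) → L) ≤ C :=
    sn_le w _ C (by linarith) fun j => hC L hr w (i, j)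
  have h2 : 0 < sn w (cst (D i) : Fin (n + 1) → L) := sn_pos w (cst_ne_zero (hD.ne_zero i))
  have h3 := Real.log_le_log h2 h1
  simp only [wloc, loc]
  rw [Real.log_div (mul_pos h2 (sn_pos w hx)).ne' (nv_pos w hix).ne',
    Real.log_mul h2.ne' (sn_pos w hx).ne']
  linarith

/-- The height inequality for one projective space. -/
theorem one_space {n q : ℕ} (D : Fin q → Fin (n + 1) → k) (hD : GenPos D) :
    ∃ Z : Finset (Fin (n + 1) → k), (∀ g ∈ Z, g ≠ 0) ∧ ∀ r : ℕ, ∃ C : ℝ, 0 ≤ C ∧
    ∀ (L : Type v) [Field L] [NumberField L] [Algebra k L], Module.finrank k L ≤ r →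
    ∀ (x : Fin (n + 1) → L), x ≠ 0 → (∀ g ∈ Z, ev (cst g) x ≠ 0) → ∀ W : Finset (Pl L),
      ∑ w ∈ W, ∑ i, wloc w (D i) x ≤ coef n W.card * Height.logHeight x + C * (1 + W.card) := by
  classical
  rcases Nat.lt_or_ge q (n + 1) with hq | hq
  · refine ⟨Finset.univ.image D, ?_, ?_⟩
    · intro g hg
      obtain ⟨i, _, rfl⟩ := Finset.mem_image.mp hg
      exact hD.ne_zero i
    intro r
    obtain ⟨C0, hC00, hC0⟩ := wloc_le.{u, v} D hD r
    choose C1 hC10 hC1 using fun i => liouville_k.{u, v} (D i) r
    refine ⟨∑ i, C1 i + q * C0, ?_, ?_⟩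
    · exact add_nonneg (Finset.sum_nonneg fun i _ => hC10 i) (by positivity)
    intro L _ _ _ hr x hx hZ W
    have hDx : ∀ i, ev (cst (D i)) x ≠ 0 := fun i => hZ _ (Finset.mem_image_of_mem _ (Finset.mem_univ i))
    have hH : 0 ≤ Height.logHeight x := Height.logHeight_nonneg x
    have hS : 0 ≤ ∑ i, C1 i := Finset.sum_nonneg fun i _ => hC10 i
    rcases Finset.eq_empty_or_nonempty W with rfl | hW
    · simp only [Finset.sum_empty, Finset.card_empty, Nat.cast_zero, add_zero, mul_one]
      have : coef n 0 = 0 := by simp [coef]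
      rw [this, zero_mul, zero_add]
      positivity
    · have h1 : ∑ w ∈ W, ∑ i, wloc w (D i) x ≤ ∑ w ∈ W, ∑ i, (loc w (cst (D i)) x + C0) :=
        Finset.sum_le_sum fun w _ => Finset.sum_le_sum fun i _ => hC0 L hr w x hx i (hDx i)
      have h2 : ∑ w ∈ W, ∑ i, (loc w (cst (D i)) x + C0)
          = ∑ i, ∑ w ∈ W, loc w (cst (D i)) x + W.card * (q * C0) := by
        simp_rw [Finset.sum_add_distrib, Finset.sum_const, Finset.card_univ, Fintype.card_fin, nsmul_eq_mul]
        rw [Finset.sum_comm]
      have h3 : ∑ i, ∑ w ∈ W, loc w (cst (D i)) x ≤ ∑ i, (Height.logHeight x + C1 i * (1 + W.card)) :=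
        Finset.sum_le_sum fun i _ => hC1 i L hr x hx (hDx i) W
      rw [Finset.sum_add_distrib, Finset.sum_const, Finset.card_univ, Fintype.card_fin, nsmul_eq_mul,
        ← Finset.sum_mul] at h3
      have h4 : (q : ℝ) ≤ coef n W.card := by
        have hc : 1 ≤ W.card := Finset.Nonempty.card_pos hW
        have hqn : (q : ℝ) ≤ n := by exact_mod_cast (by omega : q ≤ n)
        unfold coef
        split_ifs with h1
        · have h2 : W.card = 1 := by omega
          rw [h2]; push_cast; linarith
        · have h2 : (2 : ℝ) ≤ W.card := by exact_mod_cast (by omega : 2 ≤ W.card)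
          have hn : (0 : ℝ) ≤ n := Nat.cast_nonneg _
          nlinarith
      have h5 : (q : ℝ) * Height.logHeight x ≤ coef n W.card * Height.logHeight x :=
        mul_le_mul_of_nonneg_right h4 hH
      have h6 : (0 : ℝ) ≤ q * C0 := by positivity
      nlinarith
  · obtain ⟨p, rfl⟩ := Nat.exists_eq_add_of_le hq
    obtain ⟨G, hG⟩ := exists_forms D hD
    refine ⟨Finset.univ.image D ∪ Finset.univ.image (fun s : Equiv.Perm (Fin (n + 1 + p)) ×
      Equiv.Perm (Fin (n + 1 + p)) × Fin (n + 1) => G s.1 s.2.1 s.2.2), ?_, ?_⟩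
    · intro g hg
      rcases Finset.mem_union.mp hg with hg | hg
      · obtain ⟨i, _, rfl⟩ := Finset.mem_image.mp hg
        exact hD.ne_zero i
      · obtain ⟨s, _, rfl⟩ := Finset.mem_image.mp hg
        exact (hG _ _ _).1
    intro r
    obtain ⟨C0, hC00, hC0⟩ := wloc_le.{u, v} D hD r
    obtain ⟨C1, hC10, hC1⟩ := many_places.{u, v} D hD G hG r
    refine ⟨C1 + ((n + 1 + p : ℕ) : ℝ) * C0, by positivity, ?_⟩
    intro L _ _ _ hr x hx hZ W
    have hDx : ∀ i, ev (cst (D i)) x ≠ 0 := fun i =>
      hZ _ (Finset.mem_union_left _ (Finset.mem_image_of_mem _ (Finset.mem_univ i)))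
    have hGx : ∀ σ τ l, ev (cst (G σ τ l)) x ≠ 0 := fun σ τ l =>
      hZ _ (Finset.mem_union_right _ (Finset.mem_image.mpr ⟨(σ, τ, l), Finset.mem_univ _, rfl⟩))
    have h1 : ∑ w ∈ W, ∑ i, wloc w (D i) x ≤ ∑ w ∈ W, ∑ i, (loc w (cst (D i)) x + C0) :=
      Finset.sum_le_sum fun w _ => Finset.sum_le_sum fun i _ => hC0 L hr w x hx i (hDx i)
    have h2 : ∑ w ∈ W, ∑ i, (loc w (cst (D i)) x + C0)
        = ∑ w ∈ W, ∑ i, loc w (cst (D i)) x + W.card * (((n + 1 + p : ℕ) : ℝ) * C0) := by
      simp_rw [Finset.sum_add_distrib, Finset.sum_const, Finset.card_univ, Fintype.card_fin, nsmul_eq_mul]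
    have h3 := hC1 L hr x hx hDx hGx W
    have h4 : (0 : ℝ) ≤ ((n + 1 + p : ℕ) : ℝ) * C0 := by positivity
    have h5 : (0 : ℝ) ≤ W.card := Nat.cast_nonneg _
    nlinarith

end

section

variable {k : Type u} [Field k] [NumberField k] {L : Type v} [Field L] [NumberField L] [Algebra k L]

/-- the place `w` of `L` lies above the place `ν` of `k` -/
def Above (ν : Pl k) (w : Pl L) : Prop :=
  match ν, w with
  | .inl ν, .inl w => InfinitePlace.LiesOver w ν
  | .inr ν, .inr w => w.maximalIdeal.asIdeal.LiesOver ν.maximalIdeal.asIdeal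
  | _, _ => False

theorem finite_above (L : Type v) [Field L] [NumberField L] [Algebra k L] (ν : Pl k) :
    {w : Pl L | Above ν w}.Finite := by
  classical
  rcases ν with ν | ν
  · refine Set.Finite.subset (Set.finite_range (Sum.inl : InfinitePlace L → Pl L)) ?_
    rintro (w | w) hw
    · exact ⟨w, rfl⟩
    · exact absurd hw id
  · have hfin := IsDedekindDomain.primesOver_finite ν.maximalIdeal.asIdeal (𝓞 L)
    let f : Pl L → Ideal (𝓞 L) := fun w => match w with
      | .inl _ => ⊥
      | .inr w => w.maximalIdeal.asIdeal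
    have hinj : Set.InjOn f {w : Pl L | Above (.inr ν : Pl k) w} := by
      rintro (w | w) hw (w' | w') hw' h
      · exact absurd hw id
      · exact absurd hw id
      · exact absurd hw' id
      · have : w = w' := by
          rw [← FinitePlace.maximalIdeal_inj]
          exact IsDedekindDomain.HeightOneSpectrum.ext h
        rw [this]
    refine Set.Finite.of_finite_image (f := f) (hfin.subset ?_) hinj
    rintro _ ⟨w, hw, rfl⟩
    rcases w with w | w
    · exact absurd hw id
    · exact ⟨w.maximalIdeal.isPrime, hw⟩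

/-- the finite set of places of `L` above `ν` -/
noncomputable def above (L : Type v) [Field L] [NumberField L] [Algebra k L] (ν : Pl k) : Finset (Pl L) :=
  (finite_above L ν).toFinset

theorem mem_above {ν : Pl k} {w : Pl L} : w ∈ above L ν ↔ Above ν w := by
  simp [above]

theorem above_unique {ν ν' : Pl k} {w : Pl L} (h : Above ν w) (h' : Above ν' w) : ν = ν' := by
  rcases ν with ν | ν <;> rcases ν' with ν' | ν' <;> rcases w with w | w
  · have e1 := @InfinitePlace.LiesOver.comap_eq k L _ _ _ w ν h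
    have e2 := @InfinitePlace.LiesOver.comap_eq k L _ _ _ w ν' h'
    rw [← e1, ← e2]
  · exact absurd h id
  · exact absurd h' id
  · exact absurd h id
  · exact absurd h id
  · exact absurd h' id
  · exact absurd h id
  · have e1 := (h : w.maximalIdeal.asIdeal.LiesOver ν.maximalIdeal.asIdeal).over
    have e2 := (h' : w.maximalIdeal.asIdeal.LiesOver ν'.maximalIdeal.asIdeal).over
    have : ν = ν' := by
      rw [← FinitePlace.maximalIdeal_inj]
      exact IsDedekindDomain.HeightOneSpectrum.ext (e1.trans e2.symm)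
    rw [this]

theorem card_above_le (ν : Pl k) : (above L ν).card ≤ Module.finrank k L := by
  classical
  rcases ν with ν | ν
  · have h1 := InfinitePlace.unramifedPlacesOver_ncard_add_eq_finrank L ν
    have h2 : (InfinitePlace.placesOver L ν).ncard
        ≤ (InfinitePlace.ramifiedPlacesOver L ν).ncard + (InfinitePlace.unramifiedPlacesOver L ν).ncard := by
      rw [← InfinitePlace.union_ramifiedPlacesOver_unramifiedPlacesOver]
      exact Set.ncard_union_le _ _
    have h3 : (above L (.inl ν)).card ≤ (InfinitePlace.placesOver L ν).ncard := by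
      rw [← Set.ncard_coe_finset]
      have : ((above L (.inl ν) : Finset (Pl L)) : Set (Pl L)) ⊆ Sum.inl '' (InfinitePlace.placesOver L ν) := by
        rintro (w | w) hw
        · exact ⟨w, mem_above.mp hw, rfl⟩
        · exact absurd (mem_above.mp hw) id
      refine (Set.ncard_le_ncard this (Set.toFinite _)).trans ?_
      exact Set.ncard_image_le (Set.toFinite _)
    omega
  · have hne : ν.maximalIdeal.asIdeal ≠ ⊥ := ν.maximalIdeal.ne_bot
    have : ν.maximalIdeal.asIdeal.IsMaximal := ν.maximalIdeal.isMaximal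
    have : NoZeroSMulDivisors (𝓞 k) (𝓞 L) := by
      refine ⟨fun {c x} h => ?_⟩
      rw [Algebra.smul_def, mul_eq_zero] at h
      rcases h with h | h
      · left
        exact (map_eq_zero_iff _ (FaithfulSMul.algebraMap_injective (𝓞 k) (𝓞 L))).mp h
      · exact Or.inr h
    have h1 := Ideal.card_primesOverFinset_le_finrank (𝓞 L) k L hne
    refine le_trans ?_ h1
    let f : Pl L → Ideal (𝓞 L) := fun w => match w with
      | .inl _ => ⊥
      | .inr w => w.maximalIdeal.asIdeal
    refine Finset.card_le_card_of_injOn f ?_ ?_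
    · rintro (w | w) hw
      · exact absurd (mem_above.mp hw) id
      · exact (IsDedekindDomain.mem_primesOverFinset_iff hne _).mpr
          ⟨w.maximalIdeal.isPrime, mem_above.mp hw⟩
    · rintro (w | w) hw (w' | w') hw' h
      · exact absurd (mem_above.mp hw) id
      · exact absurd (mem_above.mp hw) id
      · exact absurd (mem_above.mp hw') id
      · have : w = w' := by
          rw [← FinitePlace.maximalIdeal_inj]
          exact IsDedekindDomain.HeightOneSpectrum.ext h
        rw [this]

/-- nonnegativity of the logarithmic discriminant -/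
theorem logDisc_nonneg : 0 ≤ Real.log |(discr L : ℝ)| / Module.finrank k L - Real.log |(discr k : ℝ)| := by
  have h := natAbs_discr_eq_absNorm_differentIdeal_mul_natAbs_discr_pow k (𝓞 k) L (𝓞 L)
  have hL : (discr L).natAbs ≠ 0 := Int.natAbs_ne_zero.mpr (discr_ne_zero L)
  have hk : (discr k).natAbs ≠ 0 := Int.natAbs_ne_zero.mpr (discr_ne_zero k)
  have hfin : 0 < Module.finrank k L := Module.finrank_pos
  have hle : (discr k).natAbs ^ Module.finrank k L ≤ (discr L).natAbs := by
    rw [h]
    refine Nat.le_mul_of_pos_left _ (Nat.pos_of_ne_zero ?_)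
    intro h0
    rw [h0, zero_mul] at h
    exact hL h
  have eL : |(discr L : ℝ)| = ((discr L).natAbs : ℝ) := by
    rw [Nat.cast_natAbs, Int.cast_abs]
  have ek : |(discr k : ℝ)| = ((discr k).natAbs : ℝ) := by
    rw [Nat.cast_natAbs, Int.cast_abs]
  rw [eL, ek, sub_nonneg, le_div_iff₀ (by exact_mod_cast hfin)]
  have h2 : Real.log (((discr k).natAbs : ℝ) ^ Module.finrank k L) ≤ Real.log ((discr L).natAbs : ℝ) := by
    apply Real.log_le_log
    · have : (0 : ℝ) < ((discr k).natAbs : ℝ) := by exact_mod_cast Nat.pos_of_ne_zero hk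
      positivity
    · exact_mod_cast hle
  rw [Real.log_pow] at h2
  linarith

end

end Pool.Agent.Helper64.Vojta
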